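import Pool.Agent.Helper38.RS.Goals3

/-!
# Project RS: packet PAR
-/

namespace Pool.Agent.Helper4.RS

open NumberField Polynomial Module IsDedekindDomain Pool.Agent.Helper38.RS

section

variable {F : Type} [Field F] [NumberField F]

theorem absN_zero : absN (0 : F) = 0 := by
  simp [absN, Algebra.norm_zero]

theorem gs_zero (s : ℝ) : gs s (0 : F) = 0 := by
  simp [gs, hf, absN_zero]

theorem one_le_absN (α : 𝓞 F) (h : α ≠ 0) : 1 ≤ absN (α : F) := by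
  have h1 : Algebra.norm ℚ (α : F) = ((Algebra.norm ℤ α : ℤ) : ℚ) := (Algebra.coe_norm_int α).symm
  rw [absN, h1]
  have h2 : Algebra.norm ℤ α ≠ 0 := by
    rw [Ne, Algebra.norm_eq_zero_iff]
    exact h
  have h3 : (1 : ℤ) ≤ |Algebra.norm ℤ α| := Int.one_le_abs h2
  have h4 : (1 : ℝ) ≤ ((|Algebra.norm ℤ α| : ℤ) : ℝ) := by exact_mod_cast h3
  rw [Int.cast_abs] at h4
  simpa using h4

theorem gs_bounds (h2 : S_GFB) (s : ℝ) (hs : 0 ≤ s) (α : 𝓞 F) :
    0 ≤ gs s (α : F) ∧ gs s (α : F) ≤ 1 := by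
  by_cases h : α = 0
  · subst h
    have : ((0 : 𝓞 F) : F) = 0 := by simp
    rw [this, gs_zero]
    exact ⟨le_refl _, zero_le_one⟩
  · obtain ⟨_, _, _, hp⟩ := h2 F
    have hα : (α : F) ≠ 0 := by
      simpa using h
    obtain ⟨h3, h4⟩ := hp (α : F) hα
    have hG : 0 < Gf (α : F) := lt_of_lt_of_le h3 h4
    have hN := one_le_absN α h
    have h5 : 0 ≤ absN (α : F) ^ (-s) := Real.rpow_nonneg (by linarith) _
    have h6 : absN (α : F) ^ (-s) ≤ 1 := Real.rpow_le_one_of_one_le_of_nonpos hN (by linarith)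
    have h7 : hf (α : F) / Gf (α : F) ≤ 1 := (div_le_one hG).2 h4
    have h8 : 0 ≤ hf (α : F) / Gf (α : F) := (div_pos h3 hG).le
    exact ⟨mul_nonneg h8 h5, mul_le_one₀ h7 h5 h6⟩

theorem summable_gs (h4 : S_UNF) (s : ℝ) (hs : 1 < s) :
    Summable fun α : 𝓞 F ↦ gs s (α : F) := by
  have h := (h4 F s hs (fun _ ↦ 1) (by simp) ⊤).1
  have h' : Summable ((fun α : 𝓞 F ↦ gs s (α : F)) ∘
      ((↑) : {α : 𝓞 F // α ≠ 0 ∧ α ∈ (⊤ : Ideal (𝓞 F))} → 𝓞 F)) := h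
  refine (Function.Injective.summable_iff Subtype.val_injective ?_).1 h'
  intro x hx
  have : x = 0 := by
    by_contra hne
    exact hx ⟨⟨x, hne, Submodule.mem_top⟩, rfl⟩
  subst this
  have : ((0 : 𝓞 F) : F) = 0 := by simp
  rw [this, gs_zero]

/-- the bound for one translation -/
theorem shift_bound [IsTotallyComplex F] (h1 : S_LSM) (h2 : S_GFB) (h3 : S_KEY) (h4 : S_UNF)
    (Λ : Ideal (𝓞 F)) (v : 𝓞 F) :
    ∃ C : ℝ, ∀ s : ℝ, 1 < s → s ≤ 2 →
      |(∑' β : Λ, gs s ((v + (β : 𝓞 F) : 𝓞 F) : F)) - ∑' β : Λ, gs s ((β : 𝓞 F) : F)| ≤ C := by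
  classical
  obtain ⟨C, hC⟩ := h3 F v
  set r : ℝ := (finrank ℚ F : ℝ) + 1 with hr
  have hL := h1 F r (by rw [hr]; linarith)
  set B : 𝓞 F → ℝ := fun β ↦ (if β = 0 then 1 else |C| * house (β : F) ^ (-r)) +
    (if β = -v then 1 else 0) with hB
  have hB1 : Summable fun β : 𝓞 F ↦ (if β = 0 then (1 : ℝ) else |C| * house (β : F) ^ (-r)) := by
    have hA : Summable fun β : 𝓞 F ↦ (if β = 0 then (0 : ℝ) else |C| * house (β : F) ^ (-r)) := by
      have hL' : Summable ((fun β : 𝓞 F ↦ (if β = 0 then (0 : ℝ) else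
          |C| * house (β : F) ^ (-r))) ∘ ((↑) : {α : 𝓞 F // α ≠ 0} → 𝓞 F)) := by
        refine (hL.mul_left |C|).congr ?_
        rintro ⟨b, hb⟩
        simp [hb]
      refine (Function.Injective.summable_iff Subtype.val_injective ?_).1 hL'
      intro x hx
      have : x = 0 := by
        by_contra hne
        exact hx ⟨⟨x, hne⟩, rfl⟩
      simp [this]
    have hD : Summable fun β : 𝓞 F ↦ (if β = 0 then (1 : ℝ) else 0) := by
      refine summable_of_ne_finset_zero (s := {0}) ?_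
      intro b hb
      simp at hb
      simp [hb]
    refine (hA.add hD).congr ?_
    intro b
    by_cases hb : b = 0 <;> simp [hb]
  have hB2 : Summable fun β : 𝓞 F ↦ (if β = -v then (1 : ℝ) else 0) := by
    refine summable_of_ne_finset_zero (s := {-v}) ?_
    intro b hb
    simp at hb
    simp [hb]
  have hBs : Summable B := hB1.add hB2
  have hB0 : ∀ β, 0 ≤ B β := by
    intro β
    have e1 : 0 ≤ (if β = 0 then (1 : ℝ) else |C| * house (β : F) ^ (-r)) := by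
      split_ifs
      · exact zero_le_one
      · exact mul_nonneg (abs_nonneg _) (Real.rpow_nonneg (house_nonneg _) _)
    have e2 : 0 ≤ (if β = -v then (1 : ℝ) else 0) := by
      split_ifs
      · exact zero_le_one
      · exact le_refl _
    exact add_nonneg e1 e2
  refine ⟨∑' β : Λ, B β, fun s hs1 hs2 ↦ ?_⟩
  have hG : Summable fun α : 𝓞 F ↦ gs s (α : F) := summable_gs h4 s hs1
  have hG1 : Summable fun β : Λ ↦ gs s ((v + (β : 𝓞 F) : 𝓞 F) : F) := by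
    have : Function.Injective fun β : Λ ↦ v + (β : 𝓞 F) := by
      intro a b hab
      exact Subtype.ext (add_left_cancel hab)
    exact hG.comp_injective this
  have hG2 : Summable fun β : Λ ↦ gs s ((β : 𝓞 F) : F) :=
    hG.comp_injective Subtype.val_injective
  rw [← hG1.tsum_sub hG2]
  have key : ∀ β : 𝓞 F, |gs s ((v + β : 𝓞 F) : F) - gs s (β : F)| ≤ B β := by
    intro β
    have b1 := gs_bounds h2 s (by linarith) (v + β)
    have b2 := gs_bounds h2 s (by linarith) β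
    have b3 : |gs s ((v + β : 𝓞 F) : F) - gs s (β : F)| ≤ 1 := by
      rw [abs_le]
      constructor <;> linarith [b1.1, b1.2, b2.1, b2.2]
    by_cases hb0 : β = 0
    · have : (1 : ℝ) ≤ B β := by
        have e2 : 0 ≤ (if β = -v then (1 : ℝ) else 0) := by
          split_ifs
          · exact zero_le_one
          · exact le_refl _
        simp only [hB]
        rw [if_pos hb0]
        linarith
      linarith
    · by_cases hbv : β = -v
      · have : (1 : ℝ) ≤ B β := by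
          have e1 : 0 ≤ (if β = 0 then (1 : ℝ) else |C| * house (β : F) ^ (-r)) := by
            split_ifs
            exact mul_nonneg (abs_nonneg _) (Real.rpow_nonneg (house_nonneg _) _)
          have e2 : (if β = -v then (1 : ℝ) else 0) = 1 := if_pos hbv
          simp only [hB]
          rw [e2]
          linarith
        linarith
      · have hbv' : β + v ≠ 0 := by
          intro h
          exact hbv (eq_neg_of_add_eq_zero_left h)
        have k := hC s hs1.le hs2 β hb0 hbv'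
        rw [abs_sub_comm, add_comm v β]
        refine k.trans ?_
        simp only [hB]
        rw [if_neg hb0, if_neg hbv, add_zero]
        exact mul_le_mul_of_nonneg_right (le_abs_self C) (Real.rpow_nonneg (house_nonneg _) _)
  have hBΛ : Summable fun β : Λ ↦ B (β : 𝓞 F) := hBs.comp_injective Subtype.val_injective
  have hab : Summable fun β : Λ ↦
      |gs s ((v + (β : 𝓞 F) : 𝓞 F) : F) - gs s ((β : 𝓞 F) : F)| :=
    Summable.of_nonneg_of_le (fun _ ↦ abs_nonneg _) (fun β ↦ key β) hBΛ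
  calc |∑' β : Λ, (gs s ((v + (β : 𝓞 F) : 𝓞 F) : F) - gs s ((β : 𝓞 F) : F))|
      ≤ ∑' β : Λ, |gs s ((v + (β : 𝓞 F) : 𝓞 F) : F) - gs s ((β : 𝓞 F) : F)| := by
        have := norm_tsum_le_tsum_norm (f := fun β : Λ ↦
          (gs s ((v + (β : 𝓞 F) : 𝓞 F) : F) - gs s ((β : 𝓞 F) : F))) (by simpa using hab)
        simpa using this
    _ ≤ ∑' β : Λ, B (β : 𝓞 F) := hab.tsum_le_tsum (fun β ↦ key β) hBΛ

/-- **Packet RS-PAR.** -/
theorem s_par (h1 : S_LSM) (h2 : S_GFB) (h3 : S_KEY) (h4 : S_UNF) : S_PAR := by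
  intro F _ _ _ Λ hΛ η hη
  classical
  haveI : Finite (𝓞 F ⧸ Λ) := Ideal.finiteQuotientOfFreeOfNeBot Λ hΛ
  haveI : Fintype (𝓞 F ⧸ Λ) := Fintype.ofFinite _
  set rep : 𝓞 F ⧸ Λ → 𝓞 F := Function.surjInv Ideal.Quotient.mk_surjective with hrep
  have hrep' : ∀ ρ, Ideal.Quotient.mk Λ (rep ρ) = ρ := fun ρ ↦
    Function.surjInv_eq Ideal.Quotient.mk_surjective ρ
  choose C hC using fun v : 𝓞 F ↦ shift_bound h1 h2 h3 h4 Λ v
  let e : (𝓞 F ⧸ Λ) × Λ ≃ 𝓞 F := Equiv.ofBijective (fun p ↦ rep p.1 + (p.2 : 𝓞 F)) (by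
    constructor
    · rintro ⟨a, x⟩ ⟨b, y⟩ h
      simp only at h
      have hab : a = b := by
        have := congrArg (Ideal.Quotient.mk Λ) h
        rw [map_add, map_add, hrep', hrep', Ideal.Quotient.eq_zero_iff_mem.2 x.2,
          Ideal.Quotient.eq_zero_iff_mem.2 y.2, add_zero, add_zero] at this
        exact this
      subst hab
      have : x = y := Subtype.ext (add_left_cancel h)
      rw [this]
    · intro α
      refine ⟨(Ideal.Quotient.mk Λ α, ⟨α - rep (Ideal.Quotient.mk Λ α), ?_⟩), by simp⟩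
      rw [← Ideal.Quotient.eq_zero_iff_mem, map_sub, hrep', sub_self])
  refine ⟨∑ ρ : 𝓞 F ⧸ Λ, |η (rep ρ)| * C (rep ρ), fun s hs1 hs2 ↦ ?_⟩
  have hG : Summable fun α : 𝓞 F ↦ gs s (α : F) := summable_gs h4 s hs1
  have hg0 : gs s ((0 : 𝓞 F) : F) = 0 := by
    have : ((0 : 𝓞 F) : F) = 0 := by simp
    rw [this, gs_zero]
  -- first sum
  have hS1 : ∑' α : {α : 𝓞 F // α ≠ 0}, η α.1 * gs s ((α.1 : 𝓞 F) : F) =
      ∑' α : 𝓞 F, η α * gs s (α : F) := by
    refine tsum_subtype_eq_of_support_subset (f := fun α : 𝓞 F ↦ η α * gs s (α : F))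
      (s := {α : 𝓞 F | α ≠ 0}) ?_
    intro α hα h0
    rw [Function.mem_support] at hα
    apply hα
    simp only [h0, hg0, mul_zero]
  have hS2 : ∑' α : {α : 𝓞 F // α ≠ 0 ∧ α ∈ Λ}, gs s ((α.1 : 𝓞 F) : F) =
      ∑' β : Λ, gs s ((β : 𝓞 F) : F) := by
    have a1 : ∑' α : {α : 𝓞 F // α ≠ 0 ∧ α ∈ Λ}, gs s ((α.1 : 𝓞 F) : F) =
        ∑' α : 𝓞 F, Set.indicator {α : 𝓞 F | α ≠ 0 ∧ α ∈ Λ} (fun α ↦ gs s (α : F)) α :=
      tsum_subtype {α : 𝓞 F | α ≠ 0 ∧ α ∈ Λ} (fun α ↦ gs s (α : F))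
    have a2 : ∑' β : Λ, gs s ((β : 𝓞 F) : F) =
        ∑' α : 𝓞 F, Set.indicator {α : 𝓞 F | α ∈ Λ} (fun α ↦ gs s (α : F)) α :=
      tsum_subtype {α : 𝓞 F | α ∈ Λ} (fun α ↦ gs s (α : F))
    rw [a1, a2]
    refine tsum_congr fun α ↦ ?_
    by_cases h0 : α = 0
    · subst h0
      simp only [Set.indicator]
      split_ifs <;> simp [gs_zero]
    · by_cases hm : α ∈ Λ <;> simp [Set.indicator, h0, hm]
  -- the sum over the classes
  have hηb : ∀ (ρ : 𝓞 F ⧸ Λ) (β : Λ), η (rep ρ + (β : 𝓞 F)) = η (rep ρ) := fun ρ β ↦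
    hη _ _ β.2
  have hGe : Summable fun p : (𝓞 F ⧸ Λ) × Λ ↦
      η (rep p.1) * gs s ((rep p.1 + (p.2 : 𝓞 F) : 𝓞 F) : F) := by
    have hs' : Summable fun p : (𝓞 F ⧸ Λ) × Λ ↦ gs s ((rep p.1 + (p.2 : 𝓞 F) : 𝓞 F) : F) :=
      hG.comp_injective e.injective
    obtain ⟨M, hM⟩ : ∃ M : ℝ, ∀ ρ : 𝓞 F ⧸ Λ, |η (rep ρ)| ≤ M := by
      refine ⟨∑ ρ : 𝓞 F ⧸ Λ, |η (rep ρ)|, fun ρ ↦ ?_⟩
      exact Finset.single_le_sum (f := fun ρ : 𝓞 F ⧸ Λ ↦ |η (rep ρ)|)
        (fun _ _ ↦ abs_nonneg _) (Finset.mem_univ ρ)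
    refine Summable.of_norm_bounded (g := fun p : (𝓞 F ⧸ Λ) × Λ ↦
      M * gs s ((rep p.1 + (p.2 : 𝓞 F) : 𝓞 F) : F)) (hs'.mul_left M) ?_
    intro p
    have b := gs_bounds h2 s (by linarith) (rep p.1 + (p.2 : 𝓞 F))
    rw [norm_mul, Real.norm_eq_abs, Real.norm_eq_abs, abs_of_nonneg b.1]
    exact mul_le_mul_of_nonneg_right (hM p.1) b.1
  have hS3 : ∑' α : 𝓞 F, η α * gs s (α : F) =
      ∑ ρ : 𝓞 F ⧸ Λ, η (rep ρ) * ∑' β : Λ, gs s ((rep ρ + (β : 𝓞 F) : 𝓞 F) : F) := by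
    rw [← e.tsum_eq (fun α : 𝓞 F ↦ η α * gs s (α : F))]
    have : ∑' p : (𝓞 F ⧸ Λ) × Λ, η (e p) * gs s ((e p : 𝓞 F) : F) =
        ∑' p : (𝓞 F ⧸ Λ) × Λ, η (rep p.1) * gs s ((rep p.1 + (p.2 : 𝓞 F) : 𝓞 F) : F) := by
      refine tsum_congr fun p ↦ ?_
      have he : e p = rep p.1 + (p.2 : 𝓞 F) := rfl
      rw [he, hηb]
    rw [this, hGe.tsum_prod, tsum_fintype]
    refine Finset.sum_congr rfl fun ρ _ ↦ ?_
    exact tsum_mul_left (a := η (rep ρ))
      (f := fun β : Λ ↦ gs s ((rep ρ + (β : 𝓞 F) : 𝓞 F) : F))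
  rw [hS1, hS2, hS3, finsum_eq_sum_of_fintype, Finset.sum_mul, ← Finset.sum_sub_distrib]
  refine (Finset.abs_sum_le_sum_abs _ _).trans ?_
  refine Finset.sum_le_sum fun ρ _ ↦ ?_
  rw [← mul_sub, abs_mul]
  exact mul_le_mul_of_nonneg_left (hC (rep ρ) s hs1 hs2) (abs_nonneg _)

end

end Pool.Agent.Helper4.RS
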